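import Mathlib

set_option autoImplicit false

namespace Pool.Agent.Results.MP_3f07b9_an.NoApproach

open Matrix Topology

/-- The mean of a real vector. -/
noncomputable def mean {m : ℕ} (x : Fin m → ℝ) : ℝ := (∑ k, x k) / m

/-- The Pearson correlation of two real vectors. -/
noncomputable def corr {m : ℕ} (x y : Fin m → ℝ) : ℝ :=
  (∑ k, (x k - mean x) * (y k - mean y)) /
    Real.sqrt ((∑ k, (x k - mean x) ^ 2) * (∑ k, (y k - mean y) ^ 2))

/-- The correlation map. -/
noncomputable def corrMap {n : ℕ} (A : Matrix (Fin n) (Fin n) ℝ) : Matrix (Fin n) (Fin n) ℝ :=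
  Matrix.of fun i j => corr (A i) (A j)

/-- sum of squares of the centred vector -/
noncomputable def S {m : ℕ} (x : Fin m → ℝ) : ℝ := ∑ k, (x k - mean x) ^ 2

theorem S_nonneg {m : ℕ} (x : Fin m → ℝ) : 0 ≤ S x := Finset.sum_nonneg fun _ _ => sq_nonneg _

theorem corr_affine {m : ℕ} (x y : Fin m → ℝ) (M : ℝ) (hM : 0 < M) :
    corr (fun k => 1 - M * x k) (fun k => 1 - M * y k) = corr x y := by
  rcases Nat.eq_zero_or_pos m with rfl | hm
  · simp [corr]
  have hm' : (m : ℝ) ≠ 0 := by positivity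
  have hmean : ∀ z : Fin m → ℝ, mean (fun k => 1 - M * z k) = 1 - M * mean z := by
    intro z
    simp only [mean]
    rw [Finset.sum_sub_distrib, ← Finset.mul_sum]
    simp
    field_simp
  simp only [corr, hmean]
  have h1 : ∀ z : Fin m → ℝ, ∀ k, 1 - M * z k - (1 - M * mean z) = (-M) * (z k - mean z) := by
    intro z k; ring
  simp only [h1]
  have h2 : ∑ k, (-M) * (x k - mean x) * ((-M) * (y k - mean y))
      = M ^ 2 * ∑ k, (x k - mean x) * (y k - mean y) := by
    rw [Finset.mul_sum]; exact Finset.sum_congr rfl fun k _ => by ring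
  have h3 : ∀ z : Fin m → ℝ, ∑ k, ((-M) * (z k - mean z)) ^ 2
      = M ^ 2 * ∑ k, (z k - mean z) ^ 2 := by
    intro z
    rw [Finset.mul_sum]; exact Finset.sum_congr rfl fun k _ => by ring
  rw [h2, h3, h3]
  have h4 : M ^ 2 * (∑ k, (x k - mean x) ^ 2) * (M ^ 2 * ∑ k, (y k - mean y) ^ 2)
      = (M ^ 2) ^ 2 * ((∑ k, (x k - mean x) ^ 2) * ∑ k, (y k - mean y) ^ 2) := by ring
  rw [h4, Real.sqrt_mul (by positivity), Real.sqrt_sq (by positivity)]
  rw [mul_div_mul_left _ _ (by positivity)]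

/-- The relevant class of difference matrices. -/
def Good {n : ℕ} (X : Matrix (Fin n) (Fin n) ℝ) : Prop :=
  (∀ i, X i i = 0) ∧ (∀ i j, 0 ≤ X i j) ∧ (∀ i j k, X j k ≤ 2 * X i j + 2 * X i k)

theorem good_of_psd {n : ℕ} {A : Matrix (Fin n) (Fin n) ℝ} (hA : A.PosSemidef)
    (h1 : ∀ i, A i i = 1) : Good (Matrix.of fun i j => 1 - A i j) := by
  have hsymm : ∀ i j, A i j = A j i := by
    intro i j
    have := hA.1.apply i j
    simpa using this.symm
  have hq : ∀ v : Fin n → ℝ, 0 ≤ v ⬝ᵥ (A.mulVec v) := by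
    intro v
    have := hA.dotProduct_mulVec_nonneg v
    simpa using this
  refine ⟨fun i => by simp [h1], ?_, ?_⟩
  · intro i j
    have := hq (Pi.single i 1 - Pi.single j 1)
    rw [Matrix.mulVec_sub, sub_dotProduct, dotProduct_sub, dotProduct_sub] at this
    simp only [Matrix.mulVec_single_one, single_one_dotProduct, Matrix.col_apply, h1] at this
    rw [hsymm j i] at this
    simp only [Matrix.of_apply]
    linarith
  · intro i j k
    have := hq (Pi.single j 1 + Pi.single k 1 - (2 : ℝ) • Pi.single i 1)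
    rw [Matrix.mulVec_sub, Matrix.mulVec_add, Matrix.mulVec_smul, sub_dotProduct, add_dotProduct,
      dotProduct_sub, dotProduct_sub, dotProduct_add, dotProduct_add, dotProduct_sub,
      dotProduct_add, smul_dotProduct, smul_dotProduct] at this
    simp only [Matrix.mulVec_single_one, single_one_dotProduct, Matrix.col_apply, h1,
      dotProduct_smul, smul_dotProduct, smul_eq_mul] at this
    rw [hsymm k j, hsymm j i, hsymm k i] at this
    simp only [Matrix.of_apply]
    linarith

theorem zero_of_row {n : ℕ} {X : Matrix (Fin n) (Fin n) ℝ} (hX : Good X) (i : Fin n)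
    (h : S (X i) = 0) : X = 0 := by
  have h1 : ∀ k, X i k = mean (X i) := by
    intro k
    have h2 := (Finset.sum_eq_zero_iff_of_nonneg (fun _ _ => sq_nonneg _)).mp h k
      (Finset.mem_univ _)
    have h3 := pow_eq_zero_iff (two_ne_zero) |>.mp h2
    linarith
  have h2 : ∀ k, X i k = 0 := by
    intro k
    rw [h1 k, ← h1 i, hX.1 i]
  ext j k
  have h3 := hX.2.2 i j k
  have h4 := hX.2.1 j k
  rw [h2 j, h2 k] at h3
  simp only [Matrix.zero_apply]
  linarith

theorem corrMap_ne {n : ℕ} {X : Matrix (Fin n) (Fin n) ℝ} (hX : Good X) (h0 : X ≠ 0) :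
    ∃ i j, corrMap X i j ≠ 1 := by
  by_contra hcon
  push Not at hcon
  apply h0
  have hS : ∀ i, 0 < S (X i) := fun i =>
    lt_of_le_of_ne (S_nonneg _) (fun h => h0 (zero_of_row hX i h.symm))
  ext i j
  simp only [Matrix.zero_apply]
  have h1 := hcon i j
  simp only [corrMap, Matrix.of_apply, corr] at h1
  have hsi : 0 < Real.sqrt (S (X i)) := Real.sqrt_pos.mpr (hS i)
  have hsj : 0 < Real.sqrt (S (X j)) := Real.sqrt_pos.mpr (hS j)
  have h2 : ∑ k, (X i k - mean (X i)) * (X j k - mean (X j))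
      = Real.sqrt (S (X i)) * Real.sqrt (S (X j)) := by
    rw [← Real.sqrt_mul (S_nonneg _)]
    have h3 : Real.sqrt (S (X i) * S (X j)) ≠ 0 := by
      rw [Real.sqrt_mul (S_nonneg _)]; positivity
    exact (div_eq_one_iff_eq h3).mp h1
  have h4 : ∑ k, (Real.sqrt (S (X j)) * (X i k - mean (X i))
      - Real.sqrt (S (X i)) * (X j k - mean (X j))) ^ 2 = 0 := by
    have e : ∀ k, (Real.sqrt (S (X j)) * (X i k - mean (X i))
      - Real.sqrt (S (X i)) * (X j k - mean (X j))) ^ 2
      = S (X j) * (X i k - mean (X i)) ^ 2 + S (X i) * (X j k - mean (X j)) ^ 2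
        - 2 * (Real.sqrt (S (X i)) * Real.sqrt (S (X j))) *
          ((X i k - mean (X i)) * (X j k - mean (X j))) := by
      intro k
      have e1 := Real.sq_sqrt (S_nonneg (X i))
      have e2 := Real.sq_sqrt (S_nonneg (X j))
      linear_combination (X i k - mean (X i)) ^ 2 * e2 + (X j k - mean (X j)) ^ 2 * e1
    simp only [e]
    rw [Finset.sum_sub_distrib, Finset.sum_add_distrib, ← Finset.mul_sum, ← Finset.mul_sum,
      ← Finset.mul_sum, h2]
    have e1 := Real.sq_sqrt (S_nonneg (X i))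
    have e2 := Real.sq_sqrt (S_nonneg (X j))
    change S (X j) * S (X i) + S (X i) * S (X j) - _ = 0
    have : 2 * (Real.sqrt (S (X i)) * Real.sqrt (S (X j))) *
      (Real.sqrt (S (X i)) * Real.sqrt (S (X j)))
      = 2 * (Real.sqrt (S (X i)) ^ 2 * Real.sqrt (S (X j)) ^ 2) := by ring
    rw [this, e1, e2]; ring
  have h5 : ∀ k, Real.sqrt (S (X j)) * (X i k - mean (X i))
      = Real.sqrt (S (X i)) * (X j k - mean (X j)) := by
    intro k
    have h6 := (Finset.sum_eq_zero_iff_of_nonneg (fun _ _ => sq_nonneg _)).mp h4 k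
      (Finset.mem_univ _)
    have h7 := pow_eq_zero_iff (two_ne_zero) |>.mp h6
    linarith
  have ei := h5 i
  have ej := h5 j
  rw [hX.1 i] at ei
  rw [hX.1 j] at ej
  have h8 : Real.sqrt (S (X j)) * X i j + Real.sqrt (S (X i)) * X j i = 0 := by linarith
  have h9 := hX.2.1 i j
  have h10 := hX.2.1 j i
  have h11 : 0 ≤ Real.sqrt (S (X i)) * X j i := by positivity
  have h12 : 0 ≤ Real.sqrt (S (X j)) * X i j := by positivity
  have h13 : Real.sqrt (S (X j)) * X i j = 0 := by linarith
  rcases mul_eq_zero.mp h13 with h | h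
  · exact absurd h hsj.ne'
  · exact h

/-- Normalised difference matrices. -/
def K (n : ℕ) : Set (Fin n → Fin n → ℝ) :=
  {X | Good (Matrix.of X) ∧ ‖X‖ = 1}

theorem isCompact_K (n : ℕ) : IsCompact (K n) := by
  have h1 : K n = Metric.sphere (0 : Fin n → Fin n → ℝ) 1 ∩
      ({X | ∀ i, X i i = 0} ∩ ({X | ∀ i j, 0 ≤ X i j} ∩
        {X | ∀ i j k, X j k ≤ 2 * X i j + 2 * X i k})) := by
    ext X
    simp only [K, Good, Set.mem_ofPred_eq, Set.mem_inter_iff, mem_sphere_zero_iff_norm,
      Matrix.of_apply]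
    tauto
  rw [h1]
  apply (isCompact_sphere _ _).inter_right
  refine IsClosed.inter ?_ (IsClosed.inter ?_ ?_)
  · simp only [Set.ofPred_forall]
    exact isClosed_iInter fun i => isClosed_eq (by fun_prop) continuous_const
  · simp only [Set.ofPred_forall]
    exact isClosed_iInter fun i => isClosed_iInter fun j =>
      isClosed_le continuous_const (by fun_prop)
  · simp only [Set.ofPred_forall]
    exact isClosed_iInter fun i => isClosed_iInter fun j => isClosed_iInter fun k =>
      isClosed_le (by fun_prop) (by fun_prop)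

theorem exists_delta (n : ℕ) : ∃ δ : ℝ, 0 < δ ∧ ∀ X ∈ K n, ∃ i j,
    δ ≤ |corrMap (Matrix.of X) i j - 1| := by
  rcases (K n).eq_empty_or_nonempty with h | hne
  · exact ⟨1, one_pos, by rw [h]; simp⟩
  have hX0 : ∀ X ∈ K n, Matrix.of X ≠ 0 := by
    rintro X ⟨_, h2⟩ h
    have : X = 0 := h
    rw [this, norm_zero] at h2
    norm_num at h2
  let φ : (Fin n → Fin n → ℝ) → ℝ := fun X => ∑ i, ∑ j, |corr (X i) (X j) - 1|
  have hcont : ContinuousOn φ (K n) := by
    apply continuousOn_finsetSum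
    intro i _
    apply continuousOn_finsetSum
    intro j _
    apply ContinuousOn.abs
    apply ContinuousOn.sub _ continuousOn_const
    have hS : ∀ X ∈ K n, ∀ i, 0 < S (X i) := fun X hX i =>
      lt_of_le_of_ne (S_nonneg _) (fun h => hX0 X hX (zero_of_row hX.1 i h.symm))
    simp only [corr]
    apply ContinuousOn.div
    · simp only [mean]; fun_prop
    · simp only [mean]; fun_prop
    · intro X hX
      have := mul_pos (hS X hX i) (hS X hX j)
      exact (Real.sqrt_pos.mpr this).ne'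
  obtain ⟨X₀, hX₀, hmin⟩ := (isCompact_K n).exists_isMinOn hne hcont
  have hpos : 0 < φ X₀ := by
    obtain ⟨i, j, hij⟩ := corrMap_ne hX₀.1 (hX0 X₀ hX₀)
    have h1 : 0 < |corr (X₀ i) (X₀ j) - 1| := by
      apply abs_pos.mpr
      intro h
      apply hij
      have : corr (X₀ i) (X₀ j) = 1 := by linarith
      exact this
    apply Finset.sum_pos' (fun _ _ => Finset.sum_nonneg fun _ _ => abs_nonneg _)
    exact ⟨i, Finset.mem_univ _, Finset.sum_pos' (fun _ _ => abs_nonneg _)
      ⟨j, Finset.mem_univ _, h1⟩⟩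
  refine ⟨φ X₀ / (n * n + 1), by positivity, ?_⟩
  intro X hX
  by_contra hcon
  push Not at hcon
  have h1 : φ X₀ ≤ φ X := hmin hX
  have h2 : φ X ≤ ∑ _i : Fin n, ∑ _j : Fin n, φ X₀ / (n * n + 1) :=
    Finset.sum_le_sum fun i _ => Finset.sum_le_sum fun j _ => (hcon i j).le
  simp only [Finset.sum_const, Finset.card_univ, Fintype.card_fin, nsmul_eq_mul] at h2
  have h3 : (n : ℝ) * (n * (φ X₀ / (n * n + 1))) < φ X₀ := by
    rw [← mul_assoc, mul_div_assoc', div_lt_iff₀ (by positivity)]
    nlinarith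
  linarith

theorem corrMap_good {n : ℕ} {A : Matrix (Fin n) (Fin n) ℝ} (hS : ∀ i, 0 < S (A i)) :
    (corrMap A).PosSemidef ∧ ∀ i, corrMap A i i = 1 := by
  let U : Matrix (Fin n) (Fin n) ℝ :=
    Matrix.of fun i k => (A i k - mean (A i)) / Real.sqrt (S (A i))
  have h1 : corrMap A = U * Uᴴ := by
    ext i j
    simp only [corrMap, Matrix.of_apply, corr, Matrix.mul_apply, Matrix.conjTranspose_apply, U,
      star_trivial]
    change _ / Real.sqrt (S (A i) * S (A j)) = _
    rw [Real.sqrt_mul (S_nonneg _), Finset.sum_div]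
    apply Finset.sum_congr rfl
    intro k _
    rw [div_mul_div_comm]
  refine ⟨by rw [h1]; exact Matrix.posSemidef_self_mul_conjTranspose U, ?_⟩
  intro i
  simp only [corrMap, Matrix.of_apply, corr]
  have h2 : ∑ k, (A i k - mean (A i)) * (A i k - mean (A i)) = S (A i) :=
    Finset.sum_congr rfl fun k _ => by ring
  rw [h2]
  change S (A i) / Real.sqrt (S (A i) * S (A i)) = 1
  rw [Real.sqrt_mul_self (S_nonneg _)]
  exact div_self (hS i).ne'

theorem step {n : ℕ} {A : Matrix (Fin n) (Fin n) ℝ} (hA : A.PosSemidef) (h1 : ∀ i, A i i = 1)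
    (hne : ∃ i j, A i j ≠ 1) :
    (corrMap A).PosSemidef ∧ (∀ i, corrMap A i i = 1) ∧
      ∃ X ∈ K n, corrMap A = corrMap (Matrix.of X) := by
  have hg := good_of_psd hA h1
  set X : Fin n → Fin n → ℝ := fun i j => 1 - A i j with hXdef
  have hX0 : X ≠ 0 := by
    intro h
    obtain ⟨i, j, hij⟩ := hne
    apply hij
    have := congrFun (congrFun h i) j
    simp [hXdef] at this
    linarith
  have hnorm : 0 < ‖X‖ := norm_pos_iff.mpr hX0
  let Y : Fin n → Fin n → ℝ := ‖X‖⁻¹ • X
  have hYg : Good (Matrix.of Y) := by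
    refine ⟨?_, ?_, ?_⟩
    · intro i
      have := hg.1 i
      simp only [Matrix.of_apply] at this
      simp only [Y, Matrix.of_apply, Pi.smul_apply, smul_eq_mul, this, mul_zero]
    · intro i j
      have := hg.2.1 i j
      simp only [Matrix.of_apply] at this
      simp only [Y, Matrix.of_apply, Pi.smul_apply, smul_eq_mul, hXdef]
      positivity
    · intro i j k
      have := hg.2.2 i j k
      simp only [Matrix.of_apply] at this
      simp only [Y, Matrix.of_apply, Pi.smul_apply, smul_eq_mul, hXdef]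
      have h3 : 0 ≤ ‖X‖⁻¹ := by positivity
      calc ‖X‖⁻¹ * (1 - A j k) ≤ ‖X‖⁻¹ * (2 * (1 - A i j) + 2 * (1 - A i k)) :=
            mul_le_mul_of_nonneg_left this h3
        _ = _ := by ring
  have hYK : Y ∈ K n := by
    refine ⟨hYg, ?_⟩
    simp only [Y]
    rw [norm_smul, norm_inv, norm_norm, inv_mul_cancel₀ hnorm.ne']
  have hAY : ∀ i, A i = fun k => 1 - ‖X‖ * Y i k := by
    intro i
    funext k
    simp only [Y, Pi.smul_apply, smul_eq_mul]
    rw [← mul_assoc, mul_inv_cancel₀ hnorm.ne', one_mul]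
    simp [hXdef]
  have hcor : corrMap A = corrMap (Matrix.of Y) := by
    ext i j
    simp only [corrMap, Matrix.of_apply]
    rw [hAY i, hAY j]
    exact corr_affine (Y i) (Y j) ‖X‖ hnorm
  have hY0 : Matrix.of Y ≠ 0 := by
    intro h
    have h3 : Y = 0 := h
    have h4 := hYK.2
    rw [h3, norm_zero] at h4
    norm_num at h4
  have hSY : ∀ i, 0 < S ((Matrix.of Y) i) := fun i =>
    lt_of_le_of_ne (S_nonneg _) (fun h => hY0 (zero_of_row hYg i h.symm))
  have h5 := corrMap_good hSY
  rw [hcor]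
  exact ⟨h5.1, h5.2, Y, hYK, rfl⟩

/-- For every `n` and every starting point in the elliptope other than the all-ones matrix, the
orbit of the correlation map stays at a positive distance from the all-ones matrix. -/
theorem result (n : ℕ) (A : ℕ → Matrix (Fin n) (Fin n) ℝ) (hpsd : (A 0).PosSemidef)
    (hdiag : ∀ i, A 0 i i = 1) (hne : A 0 ≠ Matrix.of fun _ _ => 1)
    (horb : ∀ k, A (k + 1) = corrMap (A k)) :
    ∃ δ : ℝ, 0 < δ ∧ ∀ k, ∃ i j, δ ≤ |A k i j - 1| := by
  obtain ⟨δ, hδ, hK⟩ := exists_delta n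
  have hne' : ∃ i j, A 0 i j ≠ 1 := by
    by_contra h
    push Not at h
    exact hne (by ext i j; simpa using h i j)
  have hmain : ∀ k, (A k).PosSemidef ∧ (∀ i, A k i i = 1) ∧ (∃ i j, A k i j ≠ 1) := by
    intro k
    induction k with
    | zero => exact ⟨hpsd, hdiag, hne'⟩
    | succ k ih =>
      obtain ⟨h1, h2, X, hX, h3⟩ := step ih.1 ih.2.1 ih.2.2
      rw [horb k]
      refine ⟨h1, h2, ?_⟩
      obtain ⟨i, j, hij⟩ := hK X hX
      refine ⟨i, j, ?_⟩
      rw [h3]
      intro h
      rw [h] at hij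
      simp at hij
      linarith
  obtain ⟨i₀, j₀, h0⟩ := hne'
  refine ⟨min δ |A 0 i₀ j₀ - 1|, lt_min hδ (abs_pos.mpr (sub_ne_zero.mpr h0)), ?_⟩
  intro k
  cases k with
  | zero => exact ⟨i₀, j₀, min_le_right _ _⟩
  | succ k =>
    obtain ⟨h1, h2, X, hX, h3⟩ := step (hmain k).1 (hmain k).2.1 (hmain k).2.2
    obtain ⟨i, j, hij⟩ := hK X hX
    refine ⟨i, j, ?_⟩
    rw [horb k, h3]
    exact (min_le_left _ _).trans hij

end Pool.Agent.Results.MP_3f07b9_an.NoApproach
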